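-- This file only re-exports a Starting point module whose file name carries an old statement number;
-- the Starting point hand-ins import it under the name below.
import Pool.Agent.Helper294.HallC.FinS01971
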